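import Pool.Agent.X83.DA.Stm
import Pool.Agent.X284.DM.NK

set_option autoImplicit false

namespace Pool.Agent.X154.DA

open MeasureTheory Set Filter Topology Real Pool.Agent.X83.DM

theorem int_exp {η : ℝ} (hη : 0 < η) : IntegrableOn (fun s : ℝ => exp (-(η * s))) (Ioi 0) := by
  have := exp_neg_integrableOn_Ioi 0 hη
  simpa [neg_mul] using this

theorem int_pow_exp {η : ℝ} (hη : 0 < η) :
    IntegrableOn (fun s : ℝ => s ^ 2 * exp (-(η * s))) (Ioi 0) := by
  have h2 : 0 < η / 2 := by linarith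
  refine Integrable.mono' ((int_exp h2).const_mul (8 / η ^ 2))
    (Continuous.aestronglyMeasurable (by fun_prop)) ?_
  refine (ae_restrict_iff' measurableSet_Ioi).2 (Eventually.of_forall fun s hs => ?_)
  have hs0 : (0:ℝ) < s := hs
  rw [Real.norm_eq_abs, abs_of_nonneg (by positivity)]
  have h3 := Real.pow_div_factorial_le_exp (x := η / 2 * s) (by positivity) 2
  have h4 : exp (-(η * s)) = exp (-(η / 2 * s)) * exp (-(η / 2 * s)) := by
    rw [← Real.exp_add]; congr 1; ring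
  have h5 : exp (η / 2 * s) * exp (-(η / 2 * s)) = 1 := by
    rw [← Real.exp_add]; simp
  have h6 : s ^ 2 ≤ 8 / η ^ 2 * exp (η / 2 * s) := by
    have : (Nat.factorial 2 : ℝ) = 2 := by norm_num [Nat.factorial]
    rw [this] at h3
    have h7 : s ^ 2 = 8 / η ^ 2 * ((η / 2 * s) ^ 2 / 2) := by field_simp; ring
    rw [h7]
    exact mul_le_mul_of_nonneg_left h3 (by positivity)
  calc s ^ 2 * exp (-(η * s)) ≤ (8 / η ^ 2 * exp (η / 2 * s)) * exp (-(η * s)) :=
        mul_le_mul_of_nonneg_right h6 (exp_pos _).le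
    _ = 8 / η ^ 2 * exp (-(η / 2 * s)) * (exp (η / 2 * s) * exp (-(η / 2 * s))) := by
        rw [h4]; ring
    _ = 8 / η ^ 2 * exp (-(η / 2 * s)) := by rw [h5, mul_one]

theorem t (H : Type*) [NormedAddCommGroup H] [InnerProductSpace ℝ H] [CompleteSpace H] :
    Pool.Agent.X83.DA.S_ST2 H := by
  intro γ C h0 hC
  refine ⟨(∫ s in Ioi (0:ℝ), 1 / 2 * C * (s ^ 2 * exp (-(γ * s)))) +
    ∫ s in Ioi (0:ℝ), C * exp (-(γ * s)), ?_⟩
  intro c δ hc0 hδ0 g g' hgc hgc' hg0 hb hb' hρ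
  obtain ⟨hN0, hNK'⟩ := Pool.Agent.X284.DM.t_NK c hc0
  obtain ⟨hI1, hI2, hI3⟩ := hNK' (fun r => ‖g r‖) C γ hgc.norm h0
    (fun r hr => ⟨norm_nonneg _, hb r hr⟩)
  have ig : IntegrableOn g (Ioi 0) := by
    refine Integrable.mono' ((int_exp h0).const_mul C) hgc.aestronglyMeasurable ?_
    refine (ae_restrict_iff' measurableSet_Ioi).2 (Eventually.of_forall fun s hs => ?_)
    exact hb s (le_of_lt hs)
  -- the kernel form of `YY`
  have hYY : ∀ s, 0 < s → Pool.Agent.X83.DA.YY c g s =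
      (-(s / 2)) • g s + ∫ r in Ioi (0:ℝ), N c s r • g r := by
    intro s hs
    unfold Pool.Agent.X83.DA.YY
    congr 1
    have hfun : (fun r => N c s r • g r) = fun r => (exp (-(c * s / 2)) / 2) • (g r +
        (Iio s).indicator (fun r => ((c * r / 2 - 1) * exp (c * r / 2)) • g r) r) := by
      funext r
      unfold N
      by_cases h : r < s
      · rw [if_pos h, indicator_of_mem (show r ∈ Iio s from h)]
        rw [← one_smul ℝ (g r), smul_smul, smul_smul, ← add_smul, smul_smul]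
        congr 1
        ring
      · rw [if_neg h, indicator_of_notMem (show r ∉ Iio s from h)]
        rw [add_zero, add_zero, mul_one]
        congr 1
        ring
    have hcont : Continuous (fun r => ((c * r / 2 - 1) * exp (c * r / 2)) • g r) :=
      Continuous.smul (by fun_prop) hgc
    have hset : Ioi (0:ℝ) ∩ Iio s = Ioo 0 s := by
      ext x; simp
    have iind : IntegrableOn ((Iio s).indicator (fun r => ((c * r / 2 - 1) * exp (c * r / 2)) • g r))
        (Ioi 0) := by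
      rw [IntegrableOn, integrable_indicator_iff measurableSet_Iio, IntegrableOn,
        Measure.restrict_restrict measurableSet_Iio, inter_comm, hset]
      exact (hcont.integrableOn_Icc (a := 0) (b := s)).mono_set Ioo_subset_Icc_self
    rw [hfun, integral_smul, integral_add ig iind, hg0, zero_add,
      setIntegral_indicator measurableSet_Iio, hset, intervalIntegral.integral_of_le hs.le,
      integral_Ioc_eq_integral_Ioo]
  -- pointwise inequality
  have hpt : ∀ s, 0 < s → ‖g' s‖ ≤ (1 - δ * s / 2 + δ ^ 2 * s ^ 2 / 2) * ‖g s‖ +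
      δ * (∫ r in Ioi (0:ℝ), N c s r * ‖g r‖) + δ ^ 2 * (C * exp (-(γ * s))) := by
    intro s hs
    have hx : |1 - δ * s / 2| ≤ 1 - δ * s / 2 + δ ^ 2 * s ^ 2 / 2 := by
      have hx0 : 0 ≤ δ * s / 2 := by positivity
      rw [abs_le]
      constructor <;> nlinarith [sq_nonneg (δ * s / 2 - 1), sq_nonneg (δ * s / 2)]
    have hdec : g' s = (1 - δ * s / 2) • g s + δ • (∫ r in Ioi (0:ℝ), N c s r • g r) +
        (g' s - g s - δ • Pool.Agent.X83.DA.YY c g s) := by
      rw [hYY s hs]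
      module
    rw [hdec]
    refine (norm_add_le _ _).trans (add_le_add ((norm_add_le _ _).trans (add_le_add ?_ ?_)) ?_)
    · rw [norm_smul, Real.norm_eq_abs]
      exact mul_le_mul_of_nonneg_right hx (norm_nonneg _)
    · rw [norm_smul, Real.norm_eq_abs, abs_of_nonneg hδ0]
      refine mul_le_mul_of_nonneg_left ?_ hδ0
      refine (norm_integral_le_integral_norm _).trans (le_of_eq ?_)
      refine setIntegral_congr_fun measurableSet_Ioi fun r hr => ?_
      simp only [norm_smul, Real.norm_eq_abs]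
      rw [abs_of_nonneg (hN0 s r (le_of_lt hr))]
    · refine (hρ s hs.le).trans (le_of_eq ?_)
      ring
  -- integrability
  have iexp0 := int_exp h0
  have ip0 := int_pow_exp h0
  have iV : IntegrableOn (fun s => ‖g s‖) (Ioi 0) := by
    refine Integrable.mono' (iexp0.const_mul C) hgc.norm.aestronglyMeasurable ?_
    refine (ae_restrict_iff' measurableSet_Ioi).2 (Eventually.of_forall fun s hs => ?_)
    rw [norm_norm]
    exact hb s (le_of_lt hs)
  have iV' : IntegrableOn (fun s => ‖g' s‖) (Ioi 0) := by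
    refine Integrable.mono' (iexp0.const_mul C) hgc'.norm.aestronglyMeasurable ?_
    refine (ae_restrict_iff' measurableSet_Ioi).2 (Eventually.of_forall fun s hs => ?_)
    rw [norm_norm]
    exact hb' s (le_of_lt hs)
  have iV2 : IntegrableOn (fun s => s ^ 2 * ‖g s‖) (Ioi 0) := by
    refine Integrable.mono' (ip0.const_mul C)
      (Continuous.aestronglyMeasurable ((continuous_pow 2).mul hgc.norm)) ?_
    refine (ae_restrict_iff' measurableSet_Ioi).2 (Eventually.of_forall fun s hs => ?_)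
    have hs0 : (0:ℝ) < s := hs
    rw [Real.norm_eq_abs, abs_of_nonneg (by positivity)]
    calc s ^ 2 * ‖g s‖ ≤ s ^ 2 * (C * exp (-(γ * s))) :=
          mul_le_mul_of_nonneg_left (hb s hs0.le) (sq_nonneg s)
      _ = _ := by ring
  have iV1 : IntegrableOn (fun s => s / 2 * ‖g s‖) (Ioi 0) := by
    refine Integrable.mono' (iV.add iV2)
      (Continuous.aestronglyMeasurable ((continuous_id.div_const 2).mul hgc.norm)) ?_
    refine (ae_restrict_iff' measurableSet_Ioi).2 (Eventually.of_forall fun s hs => ?_)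
    have hs0 : (0:ℝ) < s := hs
    rw [Real.norm_eq_abs, abs_of_nonneg (by positivity)]
    simp only [Pi.add_apply]
    nlinarith [norm_nonneg (g s), sq_nonneg (s - 1), mul_nonneg (sq_nonneg (s-1)) (norm_nonneg (g s))]
  have iRHS : IntegrableOn (fun s => ‖g s‖ - δ * (s / 2 * ‖g s‖) +
      δ ^ 2 / 2 * (s ^ 2 * ‖g s‖) + δ * (∫ r in Ioi (0:ℝ), N c s r * ‖g r‖) +
      δ ^ 2 * (C * exp (-(γ * s)))) (Ioi 0) :=
    (((iV.sub (iV1.const_mul δ)).add (iV2.const_mul (δ ^ 2 / 2))).add (hI2.const_mul δ)).add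
      ((iexp0.const_mul C).const_mul (δ ^ 2))
  have hle : ∫ s in Ioi (0:ℝ), ‖g' s‖ ≤ ∫ s in Ioi (0:ℝ), (‖g s‖ - δ * (s / 2 * ‖g s‖) +
      δ ^ 2 / 2 * (s ^ 2 * ‖g s‖) + δ * (∫ r in Ioi (0:ℝ), N c s r * ‖g r‖) +
      δ ^ 2 * (C * exp (-(γ * s)))) := by
    refine setIntegral_mono_on iV' iRHS measurableSet_Ioi fun s hs => ?_
    have := hpt s hs
    linarith
  have heq : ∫ s in Ioi (0:ℝ), (‖g s‖ - δ * (s / 2 * ‖g s‖) +
      δ ^ 2 / 2 * (s ^ 2 * ‖g s‖) + δ * (∫ r in Ioi (0:ℝ), N c s r * ‖g r‖) +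
      δ ^ 2 * (C * exp (-(γ * s)))) = (∫ s in Ioi (0:ℝ), ‖g s‖) - δ * (∫ s in Ioi (0:ℝ), s / 2 * ‖g s‖) +
      δ ^ 2 / 2 * (∫ s in Ioi (0:ℝ), s ^ 2 * ‖g s‖) +
      δ * (∫ s in Ioi (0:ℝ), (∫ r in Ioi (0:ℝ), N c s r * ‖g r‖)) +
      δ ^ 2 * ∫ s in Ioi (0:ℝ), C * exp (-(γ * s)) := by
    have J1 : Integrable (fun s => ‖g s‖ - δ * (s / 2 * ‖g s‖))
        (volume.restrict (Ioi 0)) := iV.sub (iV1.const_mul δ)
    have J2' : Integrable (fun s => δ ^ 2 / 2 * (s ^ 2 * ‖g s‖))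
        (volume.restrict (Ioi 0)) := iV2.const_mul (δ ^ 2 / 2)
    have J2 : Integrable (fun s => ‖g s‖ - δ * (s / 2 * ‖g s‖) +
        δ ^ 2 / 2 * (s ^ 2 * ‖g s‖)) (volume.restrict (Ioi 0)) := J1.add J2'
    have J3' : Integrable (fun s => δ * (∫ r in Ioi (0:ℝ), N c s r * ‖g r‖))
        (volume.restrict (Ioi 0)) := hI2.const_mul δ
    have J3 : Integrable (fun s => ‖g s‖ - δ * (s / 2 * ‖g s‖) +
        δ ^ 2 / 2 * (s ^ 2 * ‖g s‖) + δ * (∫ r in Ioi (0:ℝ), N c s r * ‖g r‖))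
        (volume.restrict (Ioi 0)) := J2.add J3'
    have J4' : Integrable (fun s => δ ^ 2 * (C * exp (-(γ * s))))
        (volume.restrict (Ioi 0)) := (iexp0.const_mul C).const_mul (δ ^ 2)
    rw [integral_add J3 J4', integral_add J2 J3', integral_add J1 J2',
      integral_sub iV (iV1.const_mul δ), integral_const_mul, integral_const_mul,
      integral_const_mul, integral_const_mul]
  have hlast : ∫ s in Ioi (0:ℝ), s ^ 2 * ‖g s‖ ≤
      2 * ∫ s in Ioi (0:ℝ), 1 / 2 * C * (s ^ 2 * exp (-(γ * s))) := by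
    rw [← integral_const_mul]
    refine setIntegral_mono_on iV2 ((ip0.const_mul (1 / 2 * C)).const_mul 2) measurableSet_Ioi
      fun s hs => ?_
    have := mul_le_mul_of_nonneg_left (hb s (le_of_lt hs)) (sq_nonneg s)
    calc s ^ 2 * ‖g s‖ ≤ s ^ 2 * (C * exp (-(γ * s))) := this
      _ = 2 * (1 / 2 * C * (s ^ 2 * exp (-(γ * s)))) := by ring
  rw [heq, hI3] at hle
  have : δ ^ 2 / 2 * (∫ s in Ioi (0:ℝ), s ^ 2 * ‖g s‖) ≤
      δ ^ 2 / 2 * (2 * ∫ s in Ioi (0:ℝ), 1 / 2 * C * (s ^ 2 * exp (-(γ * s)))) :=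
    mul_le_mul_of_nonneg_left hlast (by positivity)
  linarith

end Pool.Agent.X154.DA
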